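import Pool.Agent.H54.KVA.Defs

/-!
# The digits of a vector and the digits of its coordinates in an orthonormal basis
-/

set_option autoImplicit false

namespace Pool.Agent.H33.KVA

open Finset Real Pool.KVA
open Pool.Agent.H49.Ent Pool.Agent.H32.Dense Pool.STK

variable {d : ℕ}

lemma on_abs {v : Fin d → Fin d → ℝ} (hv : ON v) (i l : Fin d) : |v i l| ≤ 1 := by
  have h1 : ∑ l, v i l * v i l = 1 := by simpa [ip] using hv i i
  have h2 : v i l * v i l ≤ ∑ l, v i l * v i l :=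
    Finset.single_le_sum (f := fun l => v i l * v i l) (fun l _ => mul_self_nonneg _)
      (Finset.mem_univ l)
  rw [h1] at h2
  exact abs_le_one_iff_mul_self_le_one.2 h2

lemma on_complete {v : Fin d → Fin d → ℝ} (hv : ON v) (l l' : Fin d) :
    ∑ i, v i l * v i l' = if l = l' then 1 else 0 := by
  have h1 : (Matrix.of v) * (Matrix.of v).transpose = 1 := by
    ext i j
    rw [Matrix.mul_apply, Matrix.one_apply]
    simpa [ip] using hv i j
  have h2 := mul_eq_one_comm.1 h1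
  have h3 := congrFun (congrFun h2 l) l'
  rw [Matrix.mul_apply, Matrix.one_apply] at h3
  simpa using h3

lemma on_expand {v : Fin d → Fin d → ℝ} (hv : ON v) (x : Fin d → ℝ) (l : Fin d) :
    x l = ∑ i, ip (v i) x * v i l := by
  unfold ip
  have h1 : ∑ i, (∑ l', v i l' * x l') * v i l = ∑ l', x l' * ∑ i, v i l' * v i l := by
    simp_rw [Finset.sum_mul, Finset.mul_sum]
    rw [Finset.sum_comm]
    refine Finset.sum_congr rfl fun l' _ => Finset.sum_congr rfl fun i _ => by ring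
  rw [h1]
  simp_rw [on_complete hv]
  simp

lemma floor_diff {x y L : ℝ} (h : |x - y| ≤ L) : |((⌊x⌋ - ⌊y⌋ : ℤ) : ℝ)| ≤ L + 1 := by
  push_cast
  have h1 := Int.floor_le x
  have h2 := Int.lt_floor_add_one x
  have h3 := Int.floor_le y
  have h4 := Int.lt_floor_add_one y
  rw [abs_le] at h ⊢
  constructor <;> linarith [h.1, h.2]

lemma abs_lt_of_floor {x y : ℝ} (h : ⌊x⌋ = ⌊y⌋) : |x - y| ≤ 1 :=
  (Int.abs_sub_lt_one_of_floor_eq_floor h).le

lemma ip_sub (v x y : Fin d → ℝ) : ip v x - ip v y = ∑ l, v l * (x l - y l) := by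
  unfold ip
  rw [← Finset.sum_sub_distrib]
  exact Finset.sum_congr rfl fun l _ => by ring

lemma sum_abs_le {a b : Fin d → ℝ} (ha : ∀ i, |a i| ≤ 1) (hb : ∀ i, |b i| ≤ 1) :
    |∑ i, a i * b i| ≤ d := by
  refine (Finset.abs_sum_le_sum_abs _ _).trans ?_
  have : ∑ i, |a i * b i| ≤ ∑ _i : Fin d, (1 : ℝ) := by
    refine Finset.sum_le_sum fun i _ => ?_
    rw [abs_mul]
    calc |a i| * |b i| ≤ 1 * 1 := mul_le_mul (ha i) (hb i) (abs_nonneg _) zero_le_one
      _ = 1 := one_mul 1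
  simpa using this

/-- **The digits and the coordinates in a basis determine each other up to finitely many
values.** -/
theorem prj_thm : PRJStmt := by
  intro d
  have hK : 0 ≤ d * Real.log (2 * (d + 2 : ℝ) + 1) := by
    refine mul_nonneg (by positivity) (Real.log_nonneg ?_)
    have : (0 : ℝ) ≤ d := Nat.cast_nonneg d
    linarith
  refine ⟨2 * (d * Real.log (2 * (d + 2 : ℝ) + 1)), by positivity, ?_⟩
  intro Ω T _ p X Z j v S hp hv
  set K : ℝ := d * Real.log (2 * (d + 2 : ℝ) + 1) with hKd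
  have hL : ∀ (A : Ω → Fin d → ℤ) (U : Type) (W : Ω → U),
      (∀ ω ω', 0 < p ω → 0 < p ω' → W ω = W ω' → ∀ k, |((A ω k - A ω' k : ℤ) : ℝ)| ≤ d + 2) →
      CH p A W ≤ K := by
    intro A U W h
    have := CH_le_vec hp.nonneg hp.sum_one A W (fun _ => (d + 2 : ℝ)) h
    rwa [Ex_const hp.sum_one] at this
  -- equal coordinates
  have h1 : ∀ ω ω' : Ω, (∀ i, ⌊2 ^ j * ip (v i) (X ω)⌋ = ⌊2 ^ j * ip (v i) (X ω')⌋) → ∀ k,
      |((Fl X j ω k - Fl X j ω' k : ℤ) : ℝ)| ≤ d + 2 := by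
    intro ω ω' h k
    have h2 : |2 ^ j * X ω k - 2 ^ j * X ω' k| ≤ d := by
      rw [on_expand hv (X ω) k, on_expand hv (X ω') k]
      have h3 : 2 ^ j * ∑ i, ip (v i) (X ω) * v i k - 2 ^ j * ∑ i, ip (v i) (X ω') * v i k =
          ∑ i, (2 ^ j * ip (v i) (X ω) - 2 ^ j * ip (v i) (X ω')) * v i k := by
        rw [Finset.mul_sum, Finset.mul_sum, ← Finset.sum_sub_distrib]
        exact Finset.sum_congr rfl fun i _ => by ring
      rw [h3]
      exact sum_abs_le (fun i => abs_lt_of_floor (h i)) fun i => on_abs hv i k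
    have h4 := floor_diff h2
    have h5 : Fl X j ω k - Fl X j ω' k = ⌊2 ^ j * X ω k⌋ - ⌊2 ^ j * X ω' k⌋ := rfl
    rw [h5]
    linarith
  -- equal digits
  have h2 : ∀ (S' : Finset (Fin d)) (ω ω' : Ω), Fl X j ω = Fl X j ω' → ∀ k,
      |((prj v S' X j ω k - prj v S' X j ω' k : ℤ) : ℝ)| ≤ d + 2 := by
    intro S' ω ω' h k
    unfold prj
    by_cases hk : k ∈ S'
    · rw [if_pos hk, if_pos hk]
      have h3 : |2 ^ j * ip (v k) (X ω) - 2 ^ j * ip (v k) (X ω')| ≤ d := by
        have h4 : 2 ^ j * ip (v k) (X ω) - 2 ^ j * ip (v k) (X ω') =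
            ∑ l, v k l * (2 ^ j * X ω l - 2 ^ j * X ω' l) := by
          rw [← mul_sub, ip_sub, Finset.mul_sum]
          exact Finset.sum_congr rfl fun l _ => by ring
        rw [h4]
        refine sum_abs_le (fun l => on_abs hv k l) fun l => abs_lt_of_floor ?_
        exact congrFun h l
      have h4 := floor_diff h3
      linarith
    · rw [if_neg hk, if_neg hk]
      simp only [sub_self, Int.cast_zero, abs_zero]
      positivity
  have hAB : CH p (Fl X j) (fun ω => ((prj v S X j ω, prj v Sᶜ X j ω), Z ω)) ≤ K := by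
    refine hL _ _ _ fun ω ω' _ _ h k => h1 ω ω' (fun i => ?_) k
    have h3 : prj v S X j ω = prj v S X j ω' ∧ prj v Sᶜ X j ω = prj v Sᶜ X j ω' := by
      simpa using (Prod.ext_iff.1 h).1
    by_cases hi : i ∈ S
    · have := congrFun h3.1 i
      simpa [prj, hi] using this
    · have := congrFun h3.2 i
      simpa [prj, hi] using this
  have hBA : CH p (fun ω => (prj v S X j ω, prj v Sᶜ X j ω)) (fun ω => (Fl X j ω, Z ω)) ≤
      2 * K := by
    refine (CH_subadd hp.nonneg _ _ _).trans ?_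
    have h3 : CH p (prj v S X j) (fun ω => (Fl X j ω, Z ω)) ≤ K :=
      hL _ _ _ fun ω ω' _ _ h k => h2 S ω ω' (Prod.ext_iff.1 h).1 k
    have h4 : CH p (prj v Sᶜ X j) (fun ω => (Fl X j ω, Z ω)) ≤ K :=
      hL _ _ _ fun ω ω' _ _ h k => h2 Sᶜ ω ω' (Prod.ext_iff.1 h).1 k
    have h5 : CH p (fun ω => prj v S X j ω) (fun ω => (Fl X j ω, Z ω)) ≤ K := h3
    have h6 : CH p (fun ω => prj v Sᶜ X j ω) (fun ω => (Fl X j ω, Z ω)) ≤ K := h4
    linarith
  have e1 := CH_le_add hp.nonneg (Fl X j) (fun ω => (prj v S X j ω, prj v Sᶜ X j ω)) Z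
  have e2 := CH_le_add hp.nonneg (fun ω => (prj v S X j ω, prj v Sᶜ X j ω)) (Fl X j) Z
  rw [abs_le]
  constructor <;> linarith

end Pool.Agent.H33.KVA
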